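import Pool.Agent.helper60.MW.Spec

/-!
Row DNS of MW: many dense lattice squares near the image of a node.
-/

set_option autoImplicit false

namespace Pool.Agent.MW

open MeasureTheory Set Pool.Agent.helper17.Worm

lemma DNS_sq {n u : ℂ} {a : ℝ} (h : u ∈ sq n a) :
    (n.re ≤ u.re ∧ u.re < n.re + a) ∧ (n.im ≤ u.im ∧ u.im < n.im + a) := mem_rc.1 h

lemma DNS_corner (L : ℕ) (x y : ℤ) :
    (⟨(x : ℝ) / 2 ^ L, (y : ℝ) / 2 ^ L⟩ : ℂ) ∈ lsq L x y := by
  have h : (0 : ℝ) < 1 / 2 ^ L := by positivity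
  refine mem_rc.2 ⟨⟨le_rfl, ?_⟩, le_rfl, ?_⟩
  · change (x : ℝ) / 2 ^ L < (x : ℝ) / 2 ^ L + 1 / 2 ^ L
    linarith
  · change (y : ℝ) / 2 ^ L < (y : ℝ) / 2 ^ L + 1 / 2 ^ L
    linarith

theorem DNS (hROT : ROT_stmt) : DNS_stmt := by
  classical
  intro X hX hXf g N T a a' κ W₀ W L K z ha haa hκ hκ2 hL hsep hnb hTN hT hW hWW
  let T' : Finset ℂ := T.filter fun n => (1 - κ) * a ^ 2 < occ X g (sq n a)
  have hcard : K ≤ T'.card := by
    have h1 := Finset.card_filter_add_card_filter_not (s := T)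
      (fun n => (1 - κ) * a ^ 2 < occ X g (sq n a))
    have h2 : (T.filter fun n => ¬ (1 - κ) * a ^ 2 < occ X g (sq n a)).card ≤ nb X g N a (1 - κ) := by
      unfold nb
      refine Finset.card_le_card ?_
      intro n hn
      rw [Finset.mem_filter] at hn ⊢
      exact ⟨hTN hn.1, not_lt.1 hn.2⟩
    change K ≤ (T.filter fun n => (1 - κ) * a ^ 2 < occ X g (sq n a)).card
    omega
  have hex : ∀ n : ℂ, ∃ s : ℤ × ℤ, n ∈ T' → lsq L s.1 s.2 ⊆ mv g '' sq n a ∧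
      1 - 2 * κ < den X L s.1 s.2 := by
    intro n
    by_cases hn : n ∈ T'
    · obtain ⟨x, y, h1, h2⟩ := hROT X hX hXf g n a κ L ha hκ hκ2 hL (Finset.mem_filter.1 hn).2
      exact ⟨(x, y), fun _ => ⟨h1, h2⟩⟩
    · exact ⟨(0, 0), fun h => absurd h hn⟩
  choose φ hφ using hex
  -- a point of the cell of `n` with the image in the corner of the square
  have hpt : ∀ n ∈ T', ∃ u ∈ sq n a, mv g u = ⟨((φ n).1 : ℝ) / 2 ^ L, ((φ n).2 : ℝ) / 2 ^ L⟩ := by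
    intro n hn
    obtain ⟨u, hu, h⟩ := (hφ n hn).1 (DNS_corner L (φ n).1 (φ n).2)
    exact ⟨u, hu, h⟩
  have hinj : Set.InjOn φ (T' : Set ℂ) := by
    intro n hn n' hn' h
    by_contra hne
    obtain ⟨u, hu, h1⟩ := hpt n hn
    obtain ⟨u', hu', h1'⟩ := hpt n' hn'
    have h2 : mv g u = mv g u' := by rw [h1, h1', h]
    have h3 : u = u' := by
      have := dist_mv g u u'
      rw [h2, sub_self, norm_zero] at this
      exact sub_eq_zero.1 (norm_eq_zero.1 this.symm)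
    subst h3
    obtain ⟨⟨r1, r2⟩, i1, i2⟩ := DNS_sq hu
    obtain ⟨⟨r1', r2'⟩, i1', i2'⟩ := DNS_sq hu'
    have h4 := hsep n (hTN (Finset.mem_filter.1 hn).1) n' (hTN (Finset.mem_filter.1 hn').1) hne
    have h5 := Complex.norm_le_abs_re_add_abs_im (n - n')
    rw [Complex.sub_re, Complex.sub_im] at h5
    have h6 : |n.re - n'.re| < a := abs_lt.2 ⟨by linarith, by linarith⟩
    have h7 : |n.im - n'.im| < a := abs_lt.2 ⟨by linarith, by linarith⟩
    linarith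
  obtain ⟨S, hS, hSc⟩ := Finset.exists_subset_card_eq (s := T'.image φ) (n := K)
    (by rw [Finset.card_image_of_injOn hinj]; exact hcard)
  refine ⟨S, hSc, fun s hs => ?_⟩
  obtain ⟨n, hn, rfl⟩ := Finset.mem_image.1 (hS hs)
  refine ⟨(hφ n hn).2.le, ?_⟩
  obtain ⟨u, hu, h1⟩ := hpt n hn
  obtain ⟨⟨r1, r2⟩, i1, i2⟩ := DNS_sq hu
  have h2 : ‖mv g z - mv g u‖ ≤ W := by
    rw [dist_mv]
    have h3 : ‖z - u‖ ≤ ‖z - n‖ + ‖n - u‖ := by
      have : z - u = (z - n) + (n - u) := by ring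
      rw [this]
      exact norm_add_le _ _
    have h4 := hW n (Finset.mem_filter.1 hn).1
    rw [norm_sub_rev] at h4
    have h5 := Complex.norm_le_abs_re_add_abs_im (n - u)
    rw [Complex.sub_re, Complex.sub_im] at h5
    have h6 : |n.re - u.re| ≤ a := abs_le.2 ⟨by linarith, by linarith⟩
    have h7 : |n.im - u.im| ≤ a := abs_le.2 ⟨by linarith, by linarith⟩
    linarith
  have h8 := (Complex.abs_re_le_norm (mv g z - mv g u)).trans h2
  have h9 := (Complex.abs_im_le_norm (mv g z - mv g u)).trans h2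
  rw [Complex.sub_re, h1] at h8
  rw [Complex.sub_im, h1] at h9
  have h10 := abs_le.1 h8
  have h11 := abs_le.1 h9
  change -W ≤ (mv g z).re - ((φ n).1 : ℝ) / 2 ^ L ∧ (mv g z).re - ((φ n).1 : ℝ) / 2 ^ L ≤ W at h10
  change -W ≤ (mv g z).im - ((φ n).2 : ℝ) / 2 ^ L ∧ (mv g z).im - ((φ n).2 : ℝ) / 2 ^ L ≤ W at h11
  have hp : (0 : ℝ) < 1 / 2 ^ L := by positivity
  have e1 : (((φ n).1 : ℝ) + 1) / 2 ^ L = ((φ n).1 : ℝ) / 2 ^ L + 1 / 2 ^ L := add_div _ _ _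
  have e2 : (((φ n).2 : ℝ) + 1) / 2 ^ L = ((φ n).2 : ℝ) / 2 ^ L + 1 / 2 ^ L := add_div _ _ _
  refine Complex.mem_reProdIm.2 ⟨⟨?_, ?_⟩, ?_, ?_⟩
  · linarith [h10.1]
  · rw [e1]
    linarith [h10.2]
  · linarith [h11.1]
  · rw [e2]
    linarith [h11.2]

end Pool.Agent.MW
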